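import Pool.Agent.Lib.H52E.Ends

/-!
# MP_273810, H25D: the input `ends` for the surface of a polygon, part 2 (library H52E, helper52)
-/

open Set Metric Filter Topology

namespace Pool.Agent.Lib.H52E

open Pool.Agent.Lib.H42I (IsPolygon)
open Pool.Agent.H52W (cdet curve)
open Pool.Agent.Lib.H45Z
open Pool.Agent.Lib.H25D (TSurf)

section
variable {n N : ℕ} [NeZero N]

theorem ne_vertex_of_int {P : Set ℂ} {v : ZMod n → ℂ} (hP : IsPolygon P v) {p : ℂ} (hp : p ∈ interior P)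
    (i : ZMod n) : p ≠ v i := by
  rintro rfl
  exact (side_mem hP (left_mem_segment ℝ (v i) (v (i + 1)))).2 hp

/-- a point of the surface over an interior point -/
def mkint {P : Set ℂ} {v : ZMod n → ℂ} (hP : IsPolygon P v) (p : ℂ) (g : Fr N) (h : p ∈ interior P) :
    SPt P v N :=
  ⟨p, g, interior_subset h, ne_vertex_of_int hP h, fun h' => absurd h h'⟩

/-- straight segments in the interior -/
theorem seg_int {P : Set ℂ} {v : ZMod n → ℂ} {kap : ZMod n → ZMod N} (hP : IsPolygon P v)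
    (hk : Par v kap) (x y : SPt P v N) (W : ℂ) (hg : y.g = x.g) (hy : y.p = x.p + fr x.g W)
    (h : ∀ s ∈ Icc (0 : ℝ) 1, x.p + (s : ℂ) * fr x.g W ∈ interior P) : (PS hP hk).Seg x W y := by
  classical
  have h0 := h 0 ⟨le_rfl, zero_le_one⟩
  rw [Complex.ofReal_zero, zero_mul, add_zero] at h0
  have hW : 0 < ‖W‖ + 1 := by positivity
  set z : ℝ → SPt P v N := fun s => if hs : x.p + (s : ℂ) * fr x.g W ∈ interior P then
    mkint hP _ x.g hs else x with hz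
  have hzp : ∀ s ∈ Icc (0 : ℝ) 1, (z s).p = x.p + (s : ℂ) * fr x.g W := by
    intro s hs
    rw [hz]
    simp only
    rw [dif_pos (h s hs)]
    rfl
  have hzg : ∀ s ∈ Icc (0 : ℝ) 1, (z s).g = x.g := by
    intro s hs
    rw [hz]
    simp only
    rw [dif_pos (h s hs)]
    rfl
  refine ⟨z, ?_, ?_, fun s hs => ?_⟩
  · apply SPt.ext
    · rw [hzp 0 ⟨le_rfl, zero_le_one⟩, Complex.ofReal_zero, zero_mul, add_zero]
    · exact hzg 0 ⟨le_rfl, zero_le_one⟩
  · apply SPt.ext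
    · rw [hzp 1 ⟨zero_le_one, le_rfl⟩, Complex.ofReal_one, one_mul, hy]
    · rw [hzg 1 ⟨zero_le_one, le_rfl⟩, hg]
  · have hr := rho2_pos hP (z s).p (z s).nv
    refine ⟨rho2 v (z s).p / (‖W‖ + 1), div_pos hr hW, fun s' hs' hd => ?_⟩
    have h3 : ‖((s' - s : ℝ) : ℂ) * W‖ < rho2 v (z s).p := by
      rw [norm_mul, Complex.norm_real, Real.norm_eq_abs]
      rw [lt_div_iff₀ hW] at hd
      have h5 : |s' - s| * ‖W‖ ≤ |s' - s| * (‖W‖ + 1) :=
        mul_le_mul_of_nonneg_left (by linarith) (abs_nonneg _)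
      linarith
    have e : (z s).p + fr (z s).g (((s' - s : ℝ) : ℂ) * W) = x.p + (s' : ℂ) * fr x.g W := by
      rw [hzp s hs, hzg s hs, fr_real]
      push_cast
      ring
    have h4 := sadd_int hP hk (z s) (((s' - s : ℝ) : ℂ) * W) h3 (by rw [e]; exact h s' hs')
    show z s' = sadd hP hk (z s) (((s' - s : ℝ) : ℂ) * W)
    apply SPt.ext
    · rw [h4.1, e, hzp s' hs']
    · rw [h4.2, hzg s hs, hzg s' hs']

/-- the points on the leaf before it dies -/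
theorem leaf_limit {P : Set ℂ} {v : ZMod n → ℂ} {kap : ZMod n → ZMod N} (hP : IsPolygon P v)
    (hk : Par v kap) (θ : ℂ) (hθ : ‖θ‖ = 1) (x : SPt P v N) (T : ℝ) (hT : 0 < T)
    (hd : (PS hP hk).Dead θ x T) :
    ∃ (τ : ℝ) (Y : ℝ → SPt P v N) (i : ZMod n), 0 < τ ∧ τ ≤ T ∧
      (∀ s, 0 ≤ s → s < τ → (PS hP hk).Seg x ((s : ℂ) * θ) (Y s)) ∧
      ∀ s, 0 ≤ s → s < τ → ‖(Y s).p - v i‖ ≤ τ - s := by
  set S : Set ℝ := {s | 0 ≤ s ∧ s ≤ T ∧ ∃ y, (PS hP hk).Seg x ((s : ℂ) * θ) y} with hS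
  have hS0 : (0 : ℝ) ∈ S := ⟨le_rfl, hT.le, x, by rw [Complex.ofReal_zero, zero_mul]; exact TSurf.seg_refl x⟩
  have hSb : BddAbove S := ⟨T, fun s hs => hs.2.1⟩
  set τ := sSup S with hτ
  have hτT : τ ≤ T := csSup_le ⟨0, hS0⟩ fun s hs => hs.2.1
  have hreal : ∀ s : ℝ, ‖(s : ℂ) * θ‖ = |s| := by
    intro s
    rw [norm_mul, Complex.norm_real, Real.norm_eq_abs, hθ, mul_one]
  have hτ0 : 0 < τ := by
    have hr := (PS hP hk).rad_pos x
    have h1 : min T ((PS hP hk).rad x / 2) ∈ S := by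
      refine ⟨le_min hT.le (by linarith), min_le_left _ _, _, TSurf.seg_add (M := PS hP hk) ?_⟩
      rw [hreal, abs_of_pos (lt_min hT (by linarith))]
      have := min_le_right T ((PS hP hk).rad x / 2)
      linarith
    have h2 := le_csSup hSb h1
    have h3 : 0 < min T ((PS hP hk).rad x / 2) := lt_min hT (by linarith)
    linarith
  have hex : ∀ s, ∃ y, 0 ≤ s → s < τ → (PS hP hk).Seg x ((s : ℂ) * θ) y := by
    intro s
    by_cases h : 0 ≤ s ∧ s < τ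
    · obtain ⟨s', hs', hlt⟩ := exists_lt_of_lt_csSup ⟨0, hS0⟩ h.2
      obtain ⟨y, hy⟩ := hs'.2.2
      obtain ⟨z, hz, -⟩ := TSurf.seg_part hy (s := s) (by
        rw [uIcc_of_le hs'.1]; exact ⟨h.1, hlt.le⟩)
      exact ⟨z, fun _ _ => hz⟩
    · exact ⟨x, fun h1 h2 => absurd ⟨h1, h2⟩ h⟩
  choose Y hY using hex
  have hYY : ∀ s s', 0 ≤ s → s ≤ s' → s' < τ → (PS hP hk).Seg (Y s) (((s' - s : ℝ) : ℂ) * θ) (Y s') := by
    intro s s' h0 h1 h2
    obtain ⟨z, hz, hz'⟩ := TSurf.seg_part (hY s' (h0.trans h1) h2) (s := s) (by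
        rw [uIcc_of_le (h0.trans h1)]; exact ⟨h0, h1⟩)
    rw [TSurf.seg_unique (hY s h0 (h1.trans_lt h2)) hz]
    exact hz'
  have hlip : ∀ s s', 0 ≤ s → s ≤ s' → s' < τ → ‖(Y s').p - (Y s).p‖ ≤ s' - s := by
    intro s s' h0 h1 h2
    have := seg_dist hP hk (hYY s s' h0 h1 h2)
    rwa [hreal, abs_of_nonneg (by linarith)] at this
  -- a limit point
  have hsm : ∀ m : ℕ, 0 ≤ τ * (1 - 1 / ((m : ℝ) + 1)) ∧ τ * (1 - 1 / ((m : ℝ) + 1)) < τ := by
    intro m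
    have h1 : (0 : ℝ) < 1 / ((m : ℝ) + 1) := by positivity
    have h2 : 1 / ((m : ℝ) + 1) ≤ 1 := by
      rw [div_le_one (by positivity)]
      have : (0 : ℝ) ≤ m := Nat.cast_nonneg m
      linarith
    constructor
    · exact mul_nonneg hτ0.le (by linarith)
    · nlinarith
  obtain ⟨q, hq, φ, hφ, hlim⟩ := hP.compact.tendsto_subseq
    (x := fun m : ℕ => (Y (τ * (1 - 1 / ((m : ℝ) + 1)))).p) (fun m => (Y _).mem)
  have htend : Tendsto (fun m : ℕ => τ * (1 - 1 / ((φ m : ℝ) + 1))) atTop (𝓝 τ) := by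
    have h1 : Tendsto (fun m : ℕ => τ * (1 - 1 / ((m : ℝ) + 1))) atTop (𝓝 (τ * (1 - 0))) :=
      (tendsto_const_nhds.sub tendsto_one_div_add_atTop_nhds_zero_nat).const_mul τ
    rw [sub_zero, mul_one] at h1
    exact h1.comp hφ.tendsto_atTop
  have hdist : ∀ s, 0 ≤ s → s < τ → ‖(Y s).p - q‖ ≤ τ - s := by
    intro s h0 h1
    have h2 : Tendsto (fun m : ℕ => ‖(Y s).p - (Y (τ * (1 - 1 / ((φ m : ℝ) + 1)))).p‖) atTop
        (𝓝 ‖(Y s).p - q‖) := (tendsto_const_nhds.sub hlim).norm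
    refine le_of_tendsto h2 ?_
    filter_upwards [htend.eventually (lt_mem_nhds h1)] with m hm
    have h3 := hlip s _ h0 hm.le (hsm (φ m)).2
    rw [norm_sub_rev] at h3
    linarith [(hsm (φ m)).2]
  -- it is a vertex
  have hqv : ∃ i, q = v i := by
    by_contra hno
    push Not at hno
    have hρ := rho2_pos hP q hno
    set ρ := rho2 v q with hρd
    set s := max 0 (τ - ρ / 4) with hs
    have hs0 : 0 ≤ s := le_max_left _ _
    have hsτ : s < τ := max_lt hτ0 (by linarith)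
    have hs4 : τ - ρ / 4 ≤ s := le_max_right _ _
    have h1 := hdist s hs0 hsτ
    have h2 : ρ ≤ rho2 v (Y s).p + ‖q - (Y s).p‖ := rho2_le_add hP.three_le v q (Y s).p
    rw [norm_sub_rev] at h2
    set u := min (T - s) (ρ / 2) with hu
    have hu0 : 0 ≤ u := le_min (by linarith) (by linarith)
    have hu1 : u ≤ ρ / 2 := min_le_right _ _
    have hu2 : u ≤ T - s := min_le_left _ _
    have h3 : ‖(u : ℂ) * θ‖ < (PS hP hk).rad (Y s) := by
      rw [hreal, abs_of_nonneg hu0]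
      show u < rho2 v (Y s).p
      linarith
    have h4 := TSurf.seg_line (hY s hs0 hsτ) (TSurf.seg_add (M := PS hP hk) h3)
    rcases min_choice (T - s) (ρ / 2) with h5 | h5
    · apply hd
      rw [← hu] at h5
      rw [h5, add_sub_cancel] at h4
      exact ⟨_, h4⟩
    · rw [← hu] at h5
      have h6 : s + u ∈ S := ⟨by linarith, by linarith, _, h4⟩
      have h7 := le_csSup hSb h6
      rw [← hτ] at h7
      linarith
  obtain ⟨i, rfl⟩ := hqv
  exact ⟨τ, Y, i, hτ0, hτT, hY, hdist⟩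

/-- ENDS: finitely many leaves end in a vertex. -/
theorem ends {P : Set ℂ} {v : ZMod n → ℂ} {kap : ZMod n → ZMod N} (hP : IsPolygon P v)
    (hk : Par v kap) (θ : ℂ) (hθ : ‖θ‖ = 1)
    (htv : ∀ (g : Fr N) (j : ZMod n), cdet (v (j + 1) - v j) (fr g θ) ≠ 0) :
    ∃ (E : Type) (_ : Finite E) (r : E → ℝ) (σ : E → ℝ → SPt P v N), (∀ e, 0 < r e) ∧
      (∀ e, ∀ t ∈ Ioo 0 (r e), ∀ t' ∈ Ioc 0 t,
        (PS hP hk).Seg (σ e t) (((t - t' : ℝ) : ℂ) * θ) (σ e t')) ∧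
      (∀ e, ∀ t ∈ Ioo 0 (r e), (PS hP hk).Dead θ (σ e t) t) ∧
      (∀ x T, 0 < T → (PS hP hk).Dead θ x T → ∃ e, ∃ t ∈ Ioo 0 (r e), ∃ s, 0 ≤ s ∧ s < T ∧
        (PS hP hk).Seg x ((s : ℂ) * θ) (σ e t)) := by
  classical
  haveI : NeZero n := ⟨by have := hP.three_le; omega⟩
  have hreal : ∀ s : ℝ, ‖(s : ℂ) * θ‖ = |s| := by
    intro s
    rw [norm_mul, Complex.norm_real, Real.norm_eq_abs, hθ, mul_one]
  set EE : Type := {q : ZMod n × Fr N // ∃ r > 0, ∀ t ∈ Ioo (0 : ℝ) r,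
    v q.1 - (t : ℂ) * fr q.2 θ ∈ interior P} with hEE
  have hr := fun e : EE => e.2
  choose r hr0 hrint using hr
  have hhalf : ∀ e : EE, r e / 2 ∈ Ioo (0 : ℝ) (r e) := fun e => ⟨by linarith [hr0 e], by linarith [hr0 e]⟩
  set σ : EE → ℝ → SPt P v N := fun e t => if h : t ∈ Ioo (0 : ℝ) (r e) then
    mkint hP (v e.1.1 - (t : ℂ) * fr e.1.2 θ) e.1.2 (hrint e t h) else
    mkint hP (v e.1.1 - ((r e / 2 : ℝ) : ℂ) * fr e.1.2 θ) e.1.2 (hrint e _ (hhalf e)) with hσ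
  have hσp : ∀ e, ∀ t ∈ Ioo (0 : ℝ) (r e), (σ e t).p = v e.1.1 - (t : ℂ) * fr e.1.2 θ := by
    intro e t ht
    rw [hσ]
    simp only
    rw [dif_pos ht]
    rfl
  have hσg : ∀ e, ∀ t ∈ Ioo (0 : ℝ) (r e), (σ e t).g = e.1.2 := by
    intro e t ht
    rw [hσ]
    simp only
    rw [dif_pos ht]
    rfl
  have hseg : ∀ e, ∀ t ∈ Ioo 0 (r e), ∀ t' ∈ Ioc 0 t,
      (PS hP hk).Seg (σ e t) (((t - t' : ℝ) : ℂ) * θ) (σ e t') := by
    intro e t ht t' ht'
    have ht'' : t' ∈ Ioo (0 : ℝ) (r e) := ⟨ht'.1, ht'.2.trans_lt ht.2⟩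
    apply seg_int hP hk
    · rw [hσg e t ht, hσg e t' ht'']
    · rw [hσp e t ht, hσp e t' ht'', hσg e t ht, fr_real]
      push_cast
      ring
    · intro s hs
      have h1 : t - s * (t - t') ∈ Ioo (0 : ℝ) (r e) := by
        constructor
        · nlinarith [hs.1, hs.2, ht'.1, ht'.2]
        · nlinarith [hs.1, hs.2, ht'.1, ht'.2, ht.2]
      have h2 := hrint e _ h1
      have e2 : (σ e t).p + (s : ℂ) * fr (σ e t).g (((t - t' : ℝ) : ℂ) * θ) =
          v e.1.1 - ((t - s * (t - t') : ℝ) : ℂ) * fr e.1.2 θ := by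
        rw [hσp e t ht, hσg e t ht, fr_real]
        push_cast
        ring
      rw [e2]
      exact h2
  refine ⟨EE, inferInstance, r, σ, hr0, hseg, ?_, ?_⟩
  · -- dead
    rintro e t ht ⟨y, hy⟩
    have hkey : ∀ s ∈ Ioo (0 : ℝ) 1, ‖y.p - v e.1.1‖ ≤ 2 * t * (1 - s) := by
      intro s hs
      obtain ⟨y', hy1, hy2⟩ := TSurf.seg_split hy (s := s) ⟨hs.1.le, hs.2.le⟩
      have h1 : t * (1 - s) ∈ Ioc 0 t := ⟨mul_pos ht.1 (by linarith [hs.2]), by nlinarith [ht.1, hs.1]⟩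
      have h2 := hseg e t ht _ h1
      have e1 : ((t - t * (1 - s) : ℝ) : ℂ) * θ = (s : ℂ) * ((t : ℂ) * θ) := by push_cast; ring
      rw [e1] at h2
      have h3 := TSurf.seg_unique hy1 h2
      have h4 := seg_dist hP hk hy2
      rw [norm_mul, hreal, Complex.norm_real, Real.norm_eq_abs, abs_of_pos ht.1,
        abs_of_pos (by linarith [hs.2])] at h4
      have h5 : t * (1 - s) ∈ Ioo (0 : ℝ) (r e) := ⟨h1.1, h1.2.trans_lt ht.2⟩
      have h6 : ‖y'.p - v e.1.1‖ = t * (1 - s) := by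
        rw [h3, hσp e _ h5]
        have e2 : v e.1.1 - ((t * (1 - s) : ℝ) : ℂ) * fr e.1.2 θ - v e.1.1 =
          -(((t * (1 - s) : ℝ) : ℂ) * fr e.1.2 θ) := by ring
        rw [e2, norm_neg, norm_mul, norm_fr, hθ, mul_one, Complex.norm_real, Real.norm_eq_abs,
          abs_of_pos h5.1]
      calc ‖y.p - v e.1.1‖ = ‖(y.p - y'.p) + (y'.p - v e.1.1)‖ := by congr 1; ring
        _ ≤ ‖y.p - y'.p‖ + ‖y'.p - v e.1.1‖ := norm_add_le _ _
        _ ≤ (1 - s) * t + t * (1 - s) := by rw [h6]; linarith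
        _ = _ := by ring
    have h0 : ‖y.p - v e.1.1‖ ≤ 0 := by
      have h1 : Tendsto (fun s : ℝ => 2 * t * (1 - s)) (𝓝[<] 1) (𝓝 0) := by
        have h2 : Continuous fun s : ℝ => 2 * t * (1 - s) := by fun_prop
        have h3 := (h2.tendsto 1).mono_left (nhdsWithin_le_nhds (s := Iio 1))
        simpa using h3
      refine ge_of_tendsto h1 ?_
      filter_upwards [Ioo_mem_nhdsLT (show (0 : ℝ) < 1 from one_pos)] with s hs
      exact hkey s hs
    exact y.nv e.1.1 (sub_eq_zero.1 (norm_le_zero_iff.1 h0))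
  · intro x T hT hd
    obtain ⟨τ, Y, i, hτ0, hτT, hY, hdist⟩ := leaf_limit hP hk θ hθ x T hT hd
    obtain ⟨r₀, hr₀, -, hnear⟩ := near_vertex hP
    set a := max 0 (τ - r₀ / 2) with ha
    have ha0 : 0 ≤ a := le_max_left _ _
    have haτ : a < τ := max_lt hτ0 (by linarith)
    have ha2 : τ - r₀ / 2 ≤ a := le_max_right _ _
    have hnear' : ∀ s ∈ Ico a τ, ‖(Y s).p - v i‖ < r₀ := by
      intro s hs
      have := hdist s (ha0.trans hs.1) hs.2
      linarith [hs.1]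
    have hadd : ∀ s ∈ Ico 0 τ, ∀ s' ∈ Ico 0 τ, |s' - s| < rho2 v (Y s).p →
        Y s' = sadd hP hk (Y s) (((s' - s : ℝ) : ℂ) * θ) := by
      intro s hs s' hs' hd'
      have h1 : ‖((s' - s : ℝ) : ℂ) * θ‖ < (PS hP hk).rad (Y s) := by rw [hreal]; exact hd'
      have h2 := TSurf.seg_line (hY s hs.1 hs.2) (TSurf.seg_add (M := PS hP hk) h1)
      rw [add_sub_cancel] at h2
      exact TSurf.seg_unique (hY s' hs'.1 hs'.2) h2
    have hloc : ∀ b < τ, ∀ s ∈ Icc a b, ∃ δ > 0, ∀ s' ∈ Icc a b, |s' - s| < δ →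
        Y s' = sadd hP hk (Y s) (((s' - s : ℝ) : ℂ) * θ) := by
      intro b hb s hs
      exact ⟨rho2 v (Y s).p, rho2_pos hP _ (Y s).nv, fun s' hs' hd' =>
        hadd s ⟨ha0.trans hs.1, hs.2.trans_lt hb⟩ s' ⟨ha0.trans hs'.1, hs'.2.trans_lt hb⟩ hd'⟩
    have hdir := dir_end hP hk i Y θ hθ haτ hloc (fun s hs => (hnear i _ (hnear' s hs)).1)
      (fun s hs => hdist s (ha0.trans hs.1) hs.2)
    have hint : ∀ s ∈ Ico a τ, (Y s).p ∈ interior P := fun s hs =>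
      int_end hP θ htv i (Y s) (hnear i _ (hnear' s hs)).2 (τ - s) (by linarith [hs.2]) (hdir s hs)
    -- the frame is constant
    have hg : ∀ s ∈ Ico a τ, (Y s).g = (Y a).g := by
      intro s hs
      refine const_of_local (fun s => (Y s).g) (a := a) (b := s) ?_ s ⟨hs.1, le_rfl⟩ a ⟨le_rfl, hs.1⟩
      intro s1 hs1
      have hs1' : s1 ∈ Ico a τ := ⟨hs1.1, hs1.2.trans_lt hs.2⟩
      obtain ⟨ε, hε, hball⟩ := Metric.isOpen_iff.1 isOpen_interior _ (hint s1 hs1')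
      refine ⟨min ε (rho2 v (Y s1).p), lt_min hε (rho2_pos hP _ (Y s1).nv), fun s' hs' hd' => ?_⟩
      have hs'' : s' ∈ Ico a τ := ⟨hs'.1, hs'.2.trans_lt hs.2⟩
      have h1 := hadd s1 ⟨ha0.trans hs1.1, hs1'.2⟩ s' ⟨ha0.trans hs'.1, hs''.2⟩
        (hd'.trans_le (min_le_right _ _))
      have h2 : ‖((s' - s1 : ℝ) : ℂ) * θ‖ < rho2 v (Y s1).p := by
        rw [hreal]; exact hd'.trans_le (min_le_right _ _)
      have h3 := sadd_int hP hk (Y s1) (((s' - s1 : ℝ) : ℂ) * θ) h2 (hball (by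
        rw [mem_ball, dist_eq_norm, add_sub_cancel_left, norm_fr, hreal]
        exact hd'.trans_le (min_le_left _ _)))
      show (Y s').g = (Y s1).g
      rw [h1]
      exact h3.2
    set g := (Y a).g with hgd
    have hE : ∃ r > 0, ∀ t ∈ Ioo (0 : ℝ) r, v i - (t : ℂ) * fr g θ ∈ interior P := by
      refine ⟨τ - a, by linarith, fun t ht => ?_⟩
      have hs : τ - t ∈ Ico a τ := ⟨by linarith [ht.2], by linarith [ht.1]⟩
      have h1 := hdir _ hs
      rw [hg _ hs] at h1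
      have e1 : τ - (τ - t) = t := by ring
      rw [e1] at h1
      rw [← h1]
      exact hint _ hs
    set e : EE := ⟨(i, g), hE⟩ with he
    have hre := hr0 e
    set t := min (τ - a) (r e) / 2 with ht
    have ht1 : min (τ - a) (r e) ≤ τ - a := min_le_left _ _
    have ht2 : min (τ - a) (r e) ≤ r e := min_le_right _ _
    have ht3 : 0 < min (τ - a) (r e) := lt_min (by linarith) hre
    have ht0 : t ∈ Ioo (0 : ℝ) (r e) := ⟨by linarith, by linarith⟩
    have hs : τ - t ∈ Ico a τ := ⟨by linarith, by linarith⟩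
    refine ⟨e, t, ht0, τ - t, by linarith [hs.1], by linarith [hs.2], ?_⟩
    have h1 : σ e t = Y (τ - t) := by
      apply SPt.ext
      · rw [hσp e t ht0, hdir _ hs, hg _ hs]
        have e1 : τ - (τ - t) = t := by ring
        rw [e1]
      · rw [hσg e t ht0, hg _ hs]
    rw [h1]
    exact hY _ (by linarith [hs.1]) hs.2

end

end Pool.Agent.Lib.H52E
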