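import Pool.Agent.Lib.H52E.Recur

/-!
# MP_273810, H25D: the input `ends` for the surface of a polygon (library H52E, helper52)
-/

open Set Metric Filter Topology

namespace Pool.Agent.Lib.H52E

open Pool.Agent.Lib.H42I (IsPolygon)
open Pool.Agent.H52W (cdet curve)
open Pool.Agent.Lib.H45Z
open Pool.Agent.Lib.H25D (TSurf)

section
variable {n N : ℕ} [NeZero N]

/-- a leaf that tends to a vertex `i`: squared distance -/
theorem psi_end {P : Set ℂ} {v : ZMod n → ℂ} {kap : ZMod n → ZMod N} (hP : IsPolygon P v)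
    (hk : Par v kap) (i : ZMod n) (Y : ℝ → SPt P v N) (θ : ℂ) (hθ : ‖θ‖ = 1) {a τ : ℝ} (haτ : a < τ)
    (hloc : ∀ b < τ, ∀ s ∈ Icc a b, ∃ δ > 0, ∀ s' ∈ Icc a b, |s' - s| < δ →
      Y s' = sadd hP hk (Y s) (((s' - s : ℝ) : ℂ) * θ))
    (hns : ∀ s ∈ Ico a τ, ns v (Y s).p = i ∨ ns v (Y s).p = i - 1)
    (hle : ∀ s ∈ Ico a τ, ‖(Y s).p - v i‖ ≤ τ - s) :
    ∀ s ∈ Ico a τ, ‖(Y s).p - v i‖ ^ 2 = (τ - s) ^ 2 := by
  set m := (a + τ) / 2 with hm
  have ham : a < m := by rw [hm]; linarith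
  have hmτ : m < τ := by rw [hm]; linarith
  -- the slope is the same on all intervals
  obtain ⟨c, hc⟩ : ∃ c : ℝ, ∀ s ∈ Ico a τ, ‖(Y s).p - v i‖ ^ 2 = ‖(Y a).p - v i‖ ^ 2 + c * (s - a) +
      (s - a) ^ 2 := by
    have h1 : ∀ b ∈ Ico m τ, ∃ c : ℝ, ∀ s ∈ Icc a b, ‖(Y s).p - v i‖ ^ 2 = ‖(Y a).p - v i‖ ^ 2 +
        c * (s - a) + (s - a) ^ 2 := by
      intro b hb
      obtain ⟨c, hc⟩ := psi_seg hP hk i Y θ (a := a) (b := b) (by linarith [hb.1]) (hloc b hb.2)
        (fun s hs => hns s ⟨hs.1, hs.2.trans_lt hb.2⟩)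
      refine ⟨c, fun s hs => ?_⟩
      have := hc s hs
      rw [hθ] at this
      rw [this]; ring
    obtain ⟨c, hc⟩ := h1 m ⟨le_rfl, hmτ⟩
    refine ⟨c, fun s hs => ?_⟩
    have hb : max m s ∈ Ico m τ := ⟨le_max_left _ _, max_lt hmτ hs.2⟩
    obtain ⟨c', hc'⟩ := h1 _ hb
    have e1 := hc m ⟨ham.le, le_rfl⟩
    have e2 := hc' m ⟨ham.le, le_max_left _ _⟩
    have e3 : (c - c') * (m - a) = 0 := by
      rw [e1] at e2
      linear_combination e2
    have e4 : c = c' := by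
      rcases mul_eq_zero.1 e3 with h | h
      · exact sub_eq_zero.1 h
      · linarith
    rw [e4]
    exact hc' s ⟨hs.1, le_max_right _ _⟩
  set A := ‖(Y a).p - v i‖ ^ 2 with hA
  -- limit at `τ`
  have h0 : A + c * (τ - a) + (τ - a) ^ 2 = 0 := by
    have hcont : Tendsto (fun s : ℝ => A + c * (s - a) + (s - a) ^ 2) (𝓝[<] τ)
        (𝓝 (A + c * (τ - a) + (τ - a) ^ 2)) := by
      have : Continuous fun s : ℝ => A + c * (s - a) + (s - a) ^ 2 := by fun_prop
      exact (this.tendsto τ).mono_left nhdsWithin_le_nhds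
    have hz : Tendsto (fun s : ℝ => A + c * (s - a) + (s - a) ^ 2) (𝓝[<] τ) (𝓝 0) := by
      have hup : Tendsto (fun s : ℝ => (τ - s) ^ 2) (𝓝[<] τ) (𝓝 0) := by
        have h2 : Continuous fun s : ℝ => (τ - s) ^ 2 := by fun_prop
        have h3 := (h2.tendsto τ).mono_left (nhdsWithin_le_nhds (s := Iio τ))
        simpa using h3
      refine tendsto_of_tendsto_of_tendsto_of_le_of_le' tendsto_const_nhds hup ?_ ?_
      · filter_upwards [Ioo_mem_nhdsLT haτ] with s hs
        rw [← hc s ⟨hs.1.le, hs.2⟩]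
        positivity
      · filter_upwards [Ioo_mem_nhdsLT haτ] with s hs
        rw [← hc s ⟨hs.1.le, hs.2⟩]
        have h2 := hle s ⟨hs.1.le, hs.2⟩
        have h3 := norm_nonneg ((Y s).p - v i)
        nlinarith
    exact tendsto_nhds_unique hcont hz
  -- so the quadratic polynomial is `(τ - s) (d - s)`
  have h2 : ∀ s ∈ Ico a τ, ‖(Y s).p - v i‖ ^ 2 = (τ - s) * (2 * a - c - τ - s) := by
    intro s hs
    rw [hc s hs]
    linear_combination h0
  have h3 : 2 * a - c - τ = τ := by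
    apply le_antisymm
    · have e := h2 m ⟨ham.le, hmτ⟩
      have e2 := hle m ⟨ham.le, hmτ⟩
      have e3 := norm_nonneg ((Y m).p - v i)
      have e4 : (τ - m) * (2 * a - c - τ - m) ≤ (τ - m) * (τ - m) := by
        rw [← e]; nlinarith
      have e5 := le_of_mul_le_mul_left e4 (by linarith)
      linarith
    · by_contra hcon
      rw [not_le] at hcon
      set s := max m ((2 * a - c - τ + τ) / 2) with hs
      have hs1 : s ∈ Ico a τ := ⟨ham.le.trans (le_max_left _ _), max_lt hmτ (by linarith)⟩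
      have e := h2 s hs1
      have e2 : (2 * a - c - τ + τ) / 2 ≤ s := le_max_right _ _
      have e3 : 0 ≤ ‖(Y s).p - v i‖ ^ 2 := by positivity
      rw [e] at e3
      have e4 : 0 < τ - s := by linarith [hs1.2]
      have e5 : 2 * a - c - τ - s < 0 := by linarith
      nlinarith
  intro s hs
  rw [h2 s hs, h3]
  ring

/-- such a leaf is straight near the vertex -/
theorem dir_end {P : Set ℂ} {v : ZMod n → ℂ} {kap : ZMod n → ZMod N} (hP : IsPolygon P v)
    (hk : Par v kap) (i : ZMod n) (Y : ℝ → SPt P v N) (θ : ℂ) (hθ : ‖θ‖ = 1) {a τ : ℝ} (haτ : a < τ)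
    (hloc : ∀ b < τ, ∀ s ∈ Icc a b, ∃ δ > 0, ∀ s' ∈ Icc a b, |s' - s| < δ →
      Y s' = sadd hP hk (Y s) (((s' - s : ℝ) : ℂ) * θ))
    (hns : ∀ s ∈ Ico a τ, ns v (Y s).p = i ∨ ns v (Y s).p = i - 1)
    (hle : ∀ s ∈ Ico a τ, ‖(Y s).p - v i‖ ≤ τ - s) :
    ∀ s ∈ Ico a τ, (Y s).p = v i - ((τ - s : ℝ) : ℂ) * fr (Y s).g θ := by
  have hpsi := psi_end hP hk i Y θ hθ haτ hloc hns hle
  intro s hs
  set b := (s + τ) / 2 with hb
  have hsb : s < b := by rw [hb]; linarith [hs.2]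
  have hbτ : b < τ := by rw [hb]; linarith [hs.2]
  obtain ⟨δ, hδ, h1⟩ := hloc b hbτ s ⟨hs.1, hsb.le⟩
  have hr := rho2_pos hP (Y s).p (Y s).nv
  obtain ⟨η, hη0, hηδ, hηr, hηb⟩ : ∃ η : ℝ, 0 < η ∧ η < δ ∧ η < rho2 v (Y s).p ∧ η < b - s := by
    refine ⟨min δ (min (rho2 v (Y s).p) (b - s)) / 2, ?_, ?_, ?_, ?_⟩
    · have : 0 < min δ (min (rho2 v (Y s).p) (b - s)) := lt_min hδ (lt_min hr (by linarith))
      linarith
    · have h2 : min δ (min (rho2 v (Y s).p) (b - s)) ≤ δ := min_le_left _ _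
      linarith
    · have h2 : min δ (min (rho2 v (Y s).p) (b - s)) ≤ rho2 v (Y s).p :=
        (min_le_right _ _).trans (min_le_left _ _)
      linarith
    · have h2 : min δ (min (rho2 v (Y s).p) (b - s)) ≤ b - s :=
        (min_le_right _ _).trans (min_le_right _ _)
      have h3 : 0 < b - s := by linarith
      linarith
  have h2 := h1 (s + η) ⟨by linarith [hs.1], by linarith⟩ (by
    rw [add_sub_cancel_left, abs_of_pos hη0]; exact hηδ)
  rw [add_sub_cancel_left] at h2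
  have h3 := psi_local hP hk i (Y s) (hns s hs) θ η (by rw [hθ, abs_of_pos hη0, mul_one]; exact hηr)
  rw [← h2, hθ, hpsi s hs, hpsi (s + η) ⟨by linarith [hs.1], by linarith⟩] at h3
  set A := (Y s).p - v i with hA
  set B := fr (Y s).g θ with hB
  have hip : A.re * B.re + A.im * B.im = -(τ - s) := by
    have h4 : 2 * η * (A.re * B.re + A.im * B.im + (τ - s)) = 0 := by
      linear_combination -h3
    rcases mul_eq_zero.1 h4 with h5 | h5
    · linarith
    · linarith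
  have hBn : B.re * B.re + B.im * B.im = 1 := by
    have h4 : ‖B‖ = 1 := by rw [hB, norm_fr, hθ]
    have h5 : Complex.normSq B = 1 := by rw [Complex.normSq_eq_norm_sq, h4]; norm_num
    rwa [Complex.normSq_apply] at h5
  have hAn : A.re * A.re + A.im * A.im = (τ - s) ^ 2 := by
    have h4 := hpsi s hs
    rw [← Complex.normSq_eq_norm_sq, Complex.normSq_apply] at h4
    exact h4
  have hz : (A.re + (τ - s) * B.re) ^ 2 + (A.im + (τ - s) * B.im) ^ 2 = 0 := by
    linear_combination hAn + 2 * (τ - s) * hip + (τ - s) ^ 2 * hBn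
  have h5 : A.re + (τ - s) * B.re = 0 := by nlinarith [sq_nonneg (A.re + (τ - s) * B.re), sq_nonneg (A.im + (τ - s) * B.im)]
  have h6 : A.im + (τ - s) * B.im = 0 := by nlinarith [sq_nonneg (A.re + (τ - s) * B.re), sq_nonneg (A.im + (τ - s) * B.im)]
  have h7 : A = -(((τ - s : ℝ) : ℂ) * B) := by
    apply Complex.ext
    · rw [Complex.neg_re, Complex.re_ofReal_mul]; linarith
    · rw [Complex.neg_im, Complex.im_ofReal_mul]; linarith
  rw [hA] at h7
  linear_combination h7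

/-- and it is in the interior there -/
theorem int_end {P : Set ℂ} {v : ZMod n → ℂ} (hP : IsPolygon P v) (θ : ℂ)
    (htv : ∀ (g : Fr N) (j : ZMod n), cdet (v (j + 1) - v j) (fr g θ) ≠ 0) (i : ZMod n) (x : SPt P v N)
    (hnear : ∀ j, x.p ∈ segment ℝ (v j) (v (j + 1)) → j = i ∨ j = i - 1) (t : ℝ) (ht : 0 < t)
    (hx : x.p = v i - (t : ℂ) * fr x.g θ) : x.p ∈ interior P := by
  by_contra hcon
  have h1 : x.p ∈ frontier P := by
    rw [hP.compact.isClosed.frontier_eq]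
    exact ⟨x.mem, hcon⟩
  rw [hP.frontier_eq, mem_iUnion] at h1
  obtain ⟨j, hj⟩ := h1
  have h2 := Pool.Agent.H52W.cdet_side_zero v j x.p hj
  have h3 : v i ∈ segment ℝ (v j) (v (j + 1)) := by
    rcases hnear j hj with h | h
    · rw [h]; exact left_mem_segment ℝ _ _
    · rw [h, sub_add_cancel]; exact right_mem_segment ℝ _ _
  have h4 := Pool.Agent.H52W.cdet_side_zero v j (v i) h3
  apply htv x.g j
  rw [hx] at h2
  have e : v i - (t : ℂ) * fr x.g θ - v j = (v i - v j) + ((-t : ℝ) : ℂ) * fr x.g θ := by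
    push_cast; ring
  rw [e, Pool.Agent.H52W.cdet_add_smul, h4, zero_add] at h2
  rcases mul_eq_zero.1 h2 with h5 | h5
  · linarith
  · exact h5

end

end Pool.Agent.Lib.H52E
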