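import Pool.Agent.Lib.H52E.Ends2

/-!
# MP_273810, H25D: the inputs `recur` and `ends` for the directions `I * E e` (library H52E, helper52)
-/

open Set Metric Filter Topology

namespace Pool.Agent.Lib.H52E

open Pool.Agent.Lib.H42I (IsPolygon)
open Pool.Agent.H52W (cdet curve)
open Pool.Agent.Lib.H45Z
open Pool.Agent.Lib.H25D (TSurf)
open Pool.Agent.Lib.H23D (E Gon)
open Pool.Agent.H34D

theorem cs_ne_zero {N : ℕ} (hN : Odd N) (a : ZMod N) : cs a ≠ 0 := by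
  intro h
  unfold cs at h
  rw [Real.cos_eq_zero_iff] at h
  obtain ⟨m, hm⟩ := h
  obtain ⟨j, hj⟩ := hN
  have hN0 : (N : ℝ) ≠ 0 := by
    have : (N : ℝ) = 2 * j + 1 := by rw [hj]; push_cast; ring
    rw [this]; positivity
  have hpi := Real.pi_ne_zero
  have h1 : (4 : ℝ) * (a.val : ℝ) = (2 * m + 1) * N := by
    field_simp at hm
    nlinarith [hm]
  have h2 : (4 : ℤ) * (a.val : ℤ) = (2 * m + 1) * N := by exact_mod_cast h1
  have h3 : (N : ℤ) = 2 * j + 1 := by exact_mod_cast hj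
  rw [h3] at h2
  have h4 : (2 * m + 1) * (2 * (j : ℤ) + 1) = 2 * (2 * m * j + m + j) + 1 := by ring
  omega

section
variable {n N : ℕ} [NeZero N]

/-- no leaf direction is parallel to a side -/
theorem transverse {v : ZMod n → ℂ} {kap : ZMod n → ZMod N} (hN : Odd N)
    (hpar : ∀ i, ∃ r : ℝ, r ≠ 0 ∧ v (i + 1) - v i = r * E (kap i)) (e : ZMod N) (g : Fr N) (j : ZMod n) :
    cdet (v (j + 1) - v j) (fr g (Complex.I * E e)) ≠ 0 := by
  obtain ⟨r, hr, hv⟩ := hpar j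
  have hcr : ∀ a b : ℂ, cdet a b = Pool.Agent.Lib.H23D.cr a b := fun a b => rfl
  have key : ∀ m : ZMod N, Pool.Agent.Lib.H23D.cr ((r : ℂ) * E (kap j)) (Complex.I * E m) =
      r * cs (m - kap j) := by
    intro m
    rw [Pool.Agent.Lib.H23D.cr_smul_left]
    have h1 := Pool.Agent.Lib.H23D.cr_IE_E m (kap j)
    have h2 : Pool.Agent.Lib.H23D.cr (E (kap j)) (Complex.I * E m) =
        - Pool.Agent.Lib.H23D.cr (Complex.I * E m) (E (kap j)) := by
      simp only [Pool.Agent.Lib.H23D.cr]; ring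
    rw [h2, h1]
    have h3 : kap j - m = -(m - kap j) := by ring
    rw [h3, cs_neg, neg_neg]
  rw [hcr, hv]
  unfold fr
  cases hg : g.2
  · simp only [Bool.false_eq_true, if_false]
    have e1 : E g.1 * (Complex.I * E e) = Complex.I * E (g.1 + e) := by
      rw [Pool.Agent.Lib.H23D.E_add]; ring
    rw [e1, key]
    exact mul_ne_zero hr (cs_ne_zero hN _)
  · simp only [if_true]
    have e1 : E g.1 * (starRingEnd ℂ) (Complex.I * E e) = ((-1 : ℝ) : ℂ) * (Complex.I * E (g.1 - e)) := by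
      rw [map_mul, Complex.conj_I, Pool.Agent.Lib.H23D.E_conj, sub_eq_add_neg, Pool.Agent.Lib.H23D.E_add]
      push_cast; ring
    rw [e1, Pool.Agent.Lib.H23D.cr_smul_right, key]
    exact mul_ne_zero (by norm_num) (mul_ne_zero hr (cs_ne_zero hN _))

theorem norm_IE (e : ZMod N) : ‖Complex.I * E e‖ = 1 := by
  rw [norm_mul, Complex.norm_I, norm_E, one_mul]

/-- the input `recur` -/
theorem recur_E {P : Set ℂ} {v : ZMod n → ℂ} {kap : ZMod n → ZMod N} (hP : IsPolygon P v)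
    (hk : Par v kap) (e : ZMod N) :
    ∃ ε > 0, ∃ C : ℝ, 0 < C ∧ ∀ x, ¬ (PS hP hk).Dead (Complex.I * E e) x C → ∃ t ∈ Icc 0 C, ∃ y,
      (PS hP hk).Seg x ((t : ℂ) * (Complex.I * E e)) y ∧ ε ≤ (PS hP hk).rad y :=
  recur hP hk _ (norm_IE e)

/-- the input `ends` -/
theorem ends_E {P : Set ℂ} {v : ZMod n → ℂ} {kap : ZMod n → ZMod N} (hP : IsPolygon P v)
    (hk : Par v kap) (hN : Odd N) (e : ZMod N) :
    ∃ (J : Type) (_ : Finite J) (r : J → ℝ) (σ : J → ℝ → SPt P v N), (∀ e, 0 < r e) ∧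
      (∀ j, ∀ t ∈ Ioo 0 (r j), ∀ t' ∈ Ioc 0 t,
        (PS hP hk).Seg (σ j t) (((t - t' : ℝ) : ℂ) * (Complex.I * E e)) (σ j t')) ∧
      (∀ j, ∀ t ∈ Ioo 0 (r j), (PS hP hk).Dead (Complex.I * E e) (σ j t) t) ∧
      (∀ x T, 0 < T → (PS hP hk).Dead (Complex.I * E e) x T → ∃ j, ∃ t ∈ Ioo 0 (r j), ∃ s, 0 ≤ s ∧ s < T ∧
        (PS hP hk).Seg x ((s : ℂ) * (Complex.I * E e)) (σ j t)) := by
  refine ends hP hk _ (norm_IE e) (transverse (kap := kap) hN (fun i => ?_) e)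
  obtain ⟨r, hr⟩ := hk i
  refine ⟨r, ?_, hr⟩
  rintro rfl
  apply Pool.Agent.H52W.side_ne_of_polygon hP i
  have : v (i + 1) - v i = 0 := by rw [hr]; simp
  exact (sub_eq_zero.1 this).symm

end

end Pool.Agent.Lib.H52E
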