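import Pool.Agent.Lib.H25D.Basic
import Pool.Agent.Lib.H45Z.TSurf
import Pool.Agent.Lib.H52W.Jordan

/-!
# MP_273810_co, H25D: the surface of a polygon near a vertex, part 1 (library H52E, helper52)
-/

open Set Metric Filter Topology

namespace Pool.Agent.Lib.H52E

open Pool.Agent.Lib.H42I (IsPolygon)
open Pool.Agent.H52W (cdet curve)
open Pool.Agent.Lib.H45Z
open Pool.Agent.Lib.H25D (TSurf)

/-- a locally constant function on an interval is constant -/
theorem const_of_local {β : Type*} (f : ℝ → β) {a b : ℝ}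
    (h : ∀ s ∈ Icc a b, ∃ δ > 0, ∀ s' ∈ Icc a b, |s' - s| < δ → f s' = f s) :
    ∀ s ∈ Icc a b, ∀ s' ∈ Icc a b, f s = f s' := by
  letI : TopologicalSpace β := ⊥
  haveI : DiscreteTopology β := ⟨rfl⟩
  have hc : ContinuousOn f (Icc a b) := by
    intro s hs
    obtain ⟨δ, hδ, h1⟩ := h s hs
    have h2 : f =ᶠ[𝓝[Icc a b] s] fun _ => f s := by
      have h3 : ball s δ ∈ 𝓝 s := ball_mem_nhds s hδ
      filter_upwards [mem_nhdsWithin_of_mem_nhds h3, self_mem_nhdsWithin] with s' h4 h5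
      rw [mem_ball, Real.dist_eq] at h4
      exact h1 s' h5 h4
    exact (continuousWithinAt_const.congr_of_eventuallyEq h2 rfl)
  intro s hs s' hs'
  exact isPreconnected_Icc.constant hc hs hs'

/-- a locally affine function on an interval is affine -/
theorem affine_of_local (f : ℝ → ℝ) {a b : ℝ} (hab : a < b)
    (h : ∀ s ∈ Icc a b, ∃ c : ℝ, ∃ δ > 0, ∀ s' ∈ Icc a b, |s' - s| < δ → f s' = f s + c * (s' - s)) :
    ∃ c : ℝ, ∀ s ∈ Icc a b, f s = f a + c * (s - a) := by
  choose! c δ hδ hf using h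
  have key : ∀ s ∈ Icc a b, ∀ s' ∈ Icc a b, |s' - s| < δ s → c s' = c s := by
    intro s hs s' hs' hd
    obtain ⟨m, hm, hne⟩ : ∃ m ∈ Icc a b, m ≠ s' := by
      by_cases e : s' = a
      · exact ⟨b, right_mem_Icc.2 hab.le, by rw [e]; exact hab.ne'⟩
      · exact ⟨a, left_mem_Icc.2 hab.le, fun h => e h.symm⟩
    have hm0 : 0 < |m - s'| := abs_pos.2 (sub_ne_zero.2 hne)
    set ε := min (δ s - |s' - s|) (δ s') with hε
    have hε0 : 0 < ε := lt_min (by linarith) (hδ s' hs')
    set η := min 1 (ε / (2 * |m - s'|)) with hη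
    have hη0 : 0 < η := lt_min one_pos (by positivity)
    have hη1 : η ≤ 1 := min_le_left _ _
    have hηe : η * |m - s'| < ε := by
      have h1 : η ≤ ε / (2 * |m - s'|) := min_le_right _ _
      have h2 : η * |m - s'| ≤ ε / (2 * |m - s'|) * |m - s'| := mul_le_mul_of_nonneg_right h1 hm0.le
      have h3 : ε / (2 * |m - s'|) * |m - s'| = ε / 2 := by
        field_simp
      linarith
    set t := s' + η * (m - s') with ht
    have htm : t ∈ Icc a b := by
      have := (convex_Icc a b) hs' hm (sub_nonneg.2 hη1) hη0.le (by ring)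
      have e : (1 - η) • s' + η • m = t := by
        simp only [smul_eq_mul, ht]; ring
      rwa [e] at this
    have htd : |t - s'| < ε := by
      have e : t - s' = η * (m - s') := by rw [ht]; ring
      rw [e, abs_mul, abs_of_pos hη0]
      exact hηe
    have h1 := hf s hs s' hs' hd
    have h2 := hf s hs t htm (by
      have e : |t - s| ≤ |t - s'| + |s' - s| := abs_sub_le t s' s
      have e2 : ε ≤ δ s - |s' - s| := min_le_left _ _
      linarith)
    have h3 := hf s' hs' t htm (htd.trans_le (min_le_right _ _))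
    have h4 : (c s' - c s) * (t - s') = 0 := by
      rw [h1] at h3
      linear_combination h2 - h3
    have h5 : t - s' ≠ 0 := by
      have e : t - s' = η * (m - s') := by rw [ht]; ring
      rw [e]
      exact mul_ne_zero hη0.ne' (sub_ne_zero.2 hne)
    rcases mul_eq_zero.1 h4 with h6 | h6
    · exact sub_eq_zero.1 h6
    · exact absurd h6 h5
  have ha := left_mem_Icc.2 hab.le
  have hcc : ∀ s ∈ Icc a b, ∀ s' ∈ Icc a b, c s = c s' :=
    const_of_local c fun s hs => ⟨δ s, hδ s hs, fun s' hs' hd => key s hs s' hs' hd⟩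
  refine ⟨c a, fun s hs => ?_⟩
  have h2 := const_of_local (fun s => f s - c a * s) (a := a) (b := b) (fun s hs =>
    ⟨δ s, hδ s hs, fun s' hs' hd => by
      show f s' - c a * s' = f s - c a * s
      rw [hf s hs s' hs' hd, hcc s hs a ha]; ring⟩) s hs a ha
  have h3 : f s - c a * s = f a - c a * a := h2
  linarith

section
variable {n N : ℕ} [NeZero N]

/-- sides far from a vertex -/
theorem near_vertex {P : Set ℂ} {v : ZMod n → ℂ} (hP : IsPolygon P v) :
    ∃ r₀ : ℝ, 0 < r₀ ∧ (∀ i j, i ≠ j → 2 * r₀ ≤ ‖v i - v j‖) ∧ ∀ i (p : ℂ), ‖p - v i‖ < r₀ →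
      (ns v p = i ∨ ns v p = i - 1) ∧ ∀ j, p ∈ segment ℝ (v j) (v (j + 1)) → j = i ∨ j = i - 1 := by
  have hn := hP.three_le
  haveI : NeZero n := ⟨by omega⟩
  have hS := Pool.Agent.H52W.simpleV_of_polygon hP
  have h1 : ∃ r : ℝ, 0 < r ∧ ∀ i j, i ≠ j → r ≤ ‖v i - v j‖ := by
    have h2 : ∀ᶠ r : ℝ in 𝓝[>] 0, ∀ q : ZMod n × ZMod n, q.1 ≠ q.2 → r ≤ ‖v q.1 - v q.2‖ := by
      rw [eventually_all]
      rintro ⟨i, j⟩
      by_cases hij : i = j
      · exact Eventually.of_forall fun r h => absurd hij h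
      · have h3 : 0 < ‖v i - v j‖ := norm_pos_iff.2 (sub_ne_zero.2 fun h => hij (hP.inj h))
        filter_upwards [mem_nhdsWithin_of_mem_nhds (Iio_mem_nhds h3)] with r hr _
        exact (le_of_lt hr)
    obtain ⟨r, hr, hr0⟩ := (h2.and self_mem_nhdsWithin).exists
    exact ⟨r, hr0, fun i j hij => hr (i, j) hij⟩
  have h2 : ∃ r : ℝ, 0 < r ∧ ∀ i j, j ≠ i → j ≠ i - 1 → r ≤ sd v (v i) j := by
    have h2 : ∀ᶠ r : ℝ in 𝓝[>] 0, ∀ q : ZMod n × ZMod n, q.2 ≠ q.1 → q.2 ≠ q.1 - 1 →
        r ≤ sd v (v q.1) q.2 := by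
      rw [eventually_all]
      rintro ⟨i, j⟩
      by_cases hij : j = i
      · exact Eventually.of_forall fun r h => absurd hij h
      by_cases hij1 : j = i - 1
      · exact Eventually.of_forall fun r _ h => absurd hij1 h
      · have h4 : v i ∉ segment ℝ (v j) (v (j + 1)) := hS.vertex_other i j hij hij1
        have h5 : IsClosed (segment ℝ (v j) (v (j + 1))) := by
          rw [segment_eq_image]
          exact (isCompact_Icc.image (by fun_prop)).isClosed
        have h3 : 0 < sd v (v i) j :=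
          (h5.notMem_iff_infDist_pos ⟨v j, left_mem_segment ℝ _ _⟩).1 h4
        filter_upwards [mem_nhdsWithin_of_mem_nhds (Iio_mem_nhds h3)] with r hr _ _
        exact (le_of_lt hr)
    obtain ⟨r, hr, hr0⟩ := (h2.and self_mem_nhdsWithin).exists
    exact ⟨r, hr0, fun i j h h' => hr (i, j) h h'⟩
  obtain ⟨r1, hr1, h1⟩ := h1
  obtain ⟨r2, hr2, h2⟩ := h2
  refine ⟨min (r1 / 2) (r2 / 3), lt_min (by linarith) (by linarith), fun i j hij => ?_, fun i p hp => ?_⟩
  · have := h1 i j hij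
    have := min_le_left (r1 / 2) (r2 / 3)
    linarith
  have hr3 := min_le_right (r1 / 2) (r2 / 3)
  have hfar : ∀ j, j ≠ i → j ≠ i - 1 → r2 / 3 < sd v p j := by
    intro j hj hj'
    have h3 := h2 i j hj hj'
    have h4 : sd v (v i) j ≤ sd v p j + dist (v i) p := infDist_le_infDist_add_dist
    rw [dist_eq_norm, norm_sub_rev] at h4
    linarith
  have hnear : sd v p i < r2 / 3 := by
    have h3 : sd v p i ≤ dist p (v i) := infDist_le_dist_of_mem (left_mem_segment ℝ _ _)
    rw [dist_eq_norm] at h3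
    linarith
  constructor
  · by_contra hcon
    rw [not_or] at hcon
    have h3 := hfar _ hcon.1 hcon.2
    have h4 := ns_spec hn v p i
    linarith
  · intro j hj
    by_contra hcon
    rw [not_or] at hcon
    have h3 := hfar _ hcon.1 hcon.2
    have h4 : sd v p j = 0 := infDist_zero_of_mem hj
    linarith

/-- folding in a side at the vertex keeps the distance to the vertex -/
theorem sadd_vertex {P : Set ℂ} {v : ZMod n → ℂ} {kap : ZMod n → ZMod N} (hP : IsPolygon P v)
    (hk : Par v kap) (i : ZMod n) (x : SPt P v N) (hx : ns v x.p = i ∨ ns v x.p = i - 1) (u : ℂ)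
    (hu : ‖u‖ < rho2 v x.p) : ‖(sadd hP hk x u).p - v i‖ = ‖x.p + fr x.g u - v i‖ := by
  have e1 := sadd_eq hP hk x u hu
  by_cases h1 : x.p + fr x.g u ∈ interior P
  · rw [(sadd_int hP hk x u hu h1).1]
  by_cases h2 : x.p + fr x.g u ∈ P
  · rw [(sadd_side hP hk x u hu h2 h1).1]
  · rw [fold_out h2] at e1
    have e2 : (sadd hP hk x u).p = mir v kap (ns v x.p) (x.p + fr x.g u) := congrArg Prod.fst e1
    have e3 : mir v kap (ns v x.p) (v i) = v i := by
      apply mir_side hk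
      rcases hx with h | h
      · rw [h]; exact left_mem_segment ℝ _ _
      · rw [h, sub_add_cancel]; exact right_mem_segment ℝ _ _
    rw [e2]
    have h4 := norm_mir v kap (ns v x.p) (x.p + fr x.g u) (v i)
    rw [e3] at h4
    exact h4

/-- a segment is not shorter than the distance of its ends in the polygon -/
theorem seg_dist {P : Set ℂ} {v : ZMod n → ℂ} {kap : ZMod n → ZMod N} (hP : IsPolygon P v)
    (hk : Par v kap) {x y : SPt P v N} {W : ℂ} (h : (PS hP hk).Seg x W y) : ‖y.p - x.p‖ ≤ ‖W‖ := by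
  obtain ⟨z, ρ, hρ, h0, h1, -, -, hp⟩ := TSurf.seg_path h
  obtain ⟨m, hm⟩ := exists_nat_gt (‖W‖ / ρ)
  have hm0 : 0 < (m : ℝ) := lt_of_le_of_lt (div_nonneg (norm_nonneg _) hρ.le) hm
  have hstep : 1 / (m : ℝ) * ‖W‖ < ρ := by
    rw [one_div, inv_mul_eq_div, div_lt_iff₀ hm0]
    rwa [div_lt_iff₀ hρ, mul_comm] at hm
  have key : ∀ k : ℕ, k ≤ m → ‖(z (k / m)).p - x.p‖ ≤ (k / m : ℝ) * ‖W‖ := by
    intro k
    induction k with
    | zero =>
      intro _
      rw [Nat.cast_zero, zero_div, h0, sub_self, norm_zero, zero_mul]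
    | succ k ih =>
      intro hk'
      have hmem : ∀ k : ℕ, k ≤ m → (k : ℝ) / m ∈ Icc (0 : ℝ) 1 := fun k hk =>
        ⟨by positivity, (div_le_one hm0).2 (by exact_mod_cast hk)⟩
      have h3 : ((k + 1 : ℕ) : ℝ) / m - k / m = 1 / m := by
        push_cast
        ring
      have h4 : |((k + 1 : ℕ) : ℝ) / m - k / m| * ‖W‖ < ρ := by
        rw [h3, abs_of_pos (by positivity)]
        exact hstep
      have h5 := hp _ (hmem k (by omega)) _ (hmem (k + 1) hk') h4
      have h6 := sadd_dist hP hk (z (k / m)) (((((k + 1 : ℕ) : ℝ) / m - k / m : ℝ) : ℂ) * W)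
      have h7 : (PS hP hk).add (z (k / m)) (((((k + 1 : ℕ) : ℝ) / m - k / m : ℝ) : ℂ) * W) =
        sadd hP hk (z (k / m)) (((((k + 1 : ℕ) : ℝ) / m - k / m : ℝ) : ℂ) * W) := rfl
      rw [h7] at h5
      rw [← h5, norm_mul, Complex.norm_real, Real.norm_eq_abs, h3, abs_of_pos (by positivity)] at h6
      have h8 := ih (by omega)
      calc ‖(z (((k + 1 : ℕ) : ℝ) / m)).p - x.p‖
          = ‖((z (((k + 1 : ℕ) : ℝ) / m)).p - (z (k / m)).p) + ((z (k / m)).p - x.p)‖ := by
            congr 1; ring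
        _ ≤ _ := norm_add_le _ _
        _ ≤ 1 / m * ‖W‖ + k / m * ‖W‖ := add_le_add h6 h8
        _ = _ := by push_cast; ring
  have h2 := key m le_rfl
  rwa [div_self hm0.ne', h1, one_mul] at h2

/-- the squared distance to a vertex along a leaf: local form -/
theorem psi_local {P : Set ℂ} {v : ZMod n → ℂ} {kap : ZMod n → ZMod N} (hP : IsPolygon P v)
    (hk : Par v kap) (i : ZMod n) (x : SPt P v N) (hx : ns v x.p = i ∨ ns v x.p = i - 1) (W : ℂ) (t : ℝ)
    (ht : |t| * ‖W‖ < rho2 v x.p) :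
    ‖(sadd hP hk x ((t : ℂ) * W)).p - v i‖ ^ 2 = ‖x.p - v i‖ ^ 2 +
      2 * t * ((x.p - v i).re * (fr x.g W).re + (x.p - v i).im * (fr x.g W).im) + t ^ 2 * ‖W‖ ^ 2 := by
  have h1 : ‖(t : ℂ) * W‖ < rho2 v x.p := by
    rw [norm_mul, Complex.norm_real, Real.norm_eq_abs]; exact ht
  rw [sadd_vertex hP hk i x hx _ h1, fr_real]
  have h2 : ‖W‖ ^ 2 = ‖fr x.g W‖ ^ 2 := by rw [norm_fr]
  rw [h2]
  have e : x.p + (t : ℂ) * fr x.g W - v i = (x.p - v i) + (t : ℂ) * fr x.g W := by ring
  rw [e, ← Complex.normSq_eq_norm_sq, ← Complex.normSq_eq_norm_sq, ← Complex.normSq_eq_norm_sq]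
  simp only [Complex.normSq_apply, Complex.add_re, Complex.add_im, Complex.mul_re, Complex.mul_im,
    Complex.ofReal_re, Complex.ofReal_im]
  ring

end

end Pool.Agent.Lib.H52E
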