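import Pool.Agent.Lib.H52E.Local

/-!
# MP_273810, H25D: the input `recur` for the surface of a polygon (library H52E, helper52)
-/

open Set Metric Filter Topology

namespace Pool.Agent.Lib.H52E

open Pool.Agent.Lib.H42I (IsPolygon)
open Pool.Agent.H52W (cdet curve)
open Pool.Agent.Lib.H45Z
open Pool.Agent.Lib.H25D (TSurf)

section
variable {n N : ℕ} [NeZero N]

/-- along a segment near a vertex the squared distance to the vertex is a quadratic polynomial -/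
theorem psi_seg {P : Set ℂ} {v : ZMod n → ℂ} {kap : ZMod n → ZMod N} (hP : IsPolygon P v)
    (hk : Par v kap) (i : ZMod n) (Y : ℝ → SPt P v N) (W : ℂ) {a b : ℝ} (hab : a < b)
    (hloc : ∀ s ∈ Icc a b, ∃ δ > 0, ∀ s' ∈ Icc a b, |s' - s| < δ →
      Y s' = sadd hP hk (Y s) (((s' - s : ℝ) : ℂ) * W))
    (hns : ∀ s ∈ Icc a b, ns v (Y s).p = i ∨ ns v (Y s).p = i - 1) :
    ∃ c : ℝ, ∀ s ∈ Icc a b, ‖(Y s).p - v i‖ ^ 2 = ‖(Y a).p - v i‖ ^ 2 + c * (s - a) +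
      ‖W‖ ^ 2 * (s - a) ^ 2 := by
  have hW : 0 < ‖W‖ + 1 := by positivity
  obtain ⟨c, hc⟩ := affine_of_local (fun s => ‖(Y s).p - v i‖ ^ 2 - ‖W‖ ^ 2 * (s - a) ^ 2) hab
    (by
      intro s hs
      obtain ⟨δ, hδ, h1⟩ := hloc s hs
      have hr := rho2_pos hP (Y s).p (Y s).nv
      refine ⟨2 * (((Y s).p - v i).re * (fr (Y s).g W).re + ((Y s).p - v i).im * (fr (Y s).g W).im) -
        2 * ‖W‖ ^ 2 * (s - a), min δ (rho2 v (Y s).p / (‖W‖ + 1)), lt_min hδ (div_pos hr hW),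
        fun s' hs' hd => ?_⟩
      have h2 := h1 s' hs' (hd.trans_le (min_le_left _ _))
      have h3 : |s' - s| * ‖W‖ < rho2 v (Y s).p := by
        have h4 := hd.trans_le (min_le_right _ _)
        rw [lt_div_iff₀ hW] at h4
        have h5 : |s' - s| * ‖W‖ ≤ |s' - s| * (‖W‖ + 1) :=
          mul_le_mul_of_nonneg_left (by linarith) (abs_nonneg _)
        linarith
      have h4 := psi_local hP hk i (Y s) (hns s hs) W (s' - s) h3
      show ‖(Y s').p - v i‖ ^ 2 - ‖W‖ ^ 2 * (s' - a) ^ 2 = _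
      rw [h2, h4]
      ring)
  refine ⟨c, fun s hs => ?_⟩
  have h1 : ‖(Y s).p - v i‖ ^ 2 - ‖W‖ ^ 2 * (s - a) ^ 2 =
      ‖(Y a).p - v i‖ ^ 2 - ‖W‖ ^ 2 * (a - a) ^ 2 + c * (s - a) := hc s hs
  rw [sub_self] at h1
  linarith

/-- away from the vertices `rho2` is bounded below -/
theorem rho2_bound {P : Set ℂ} {v : ZMod n → ℂ} (hP : IsPolygon P v) (r : ℝ) (hr : 0 < r) :
    ∃ ε > 0, ∀ p ∈ P, (∀ i, r ≤ ‖p - v i‖) → ε ≤ rho2 v p := by
  have hcl : IsClosed {p : ℂ | ∀ i, r ≤ ‖p - v i‖} := by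
    rw [setOf_forall]
    exact isClosed_iInter fun i => isClosed_le continuous_const (by fun_prop)
  have hK : IsCompact (P ∩ {p : ℂ | ∀ i, r ≤ ‖p - v i‖}) := hP.compact.inter_right hcl
  rcases (P ∩ {p : ℂ | ∀ i, r ≤ ‖p - v i‖}).eq_empty_or_nonempty with h0 | h0
  · refine ⟨1, one_pos, fun p hp h => ?_⟩
    have : p ∈ P ∩ {p : ℂ | ∀ i, r ≤ ‖p - v i‖} := ⟨hp, h⟩
    rw [h0] at this
    exact absurd this (notMem_empty _)
  · obtain ⟨q, hq, hmin⟩ := hK.exists_isMinOn h0 (rho2_continuous hP.three_le v).continuousOn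
    refine ⟨rho2 v q, ?_, fun p hp h => hmin ⟨hp, h⟩⟩
    apply rho2_pos hP
    intro i hi
    have := hq.2 i
    rw [hi, sub_self, norm_zero] at this
    linarith

/-- RECUR: every leaf comes back to the thick part of the surface within a bounded time. -/
theorem recur {P : Set ℂ} {v : ZMod n → ℂ} {kap : ZMod n → ZMod N} (hP : IsPolygon P v)
    (hk : Par v kap) (θ : ℂ) (hθ : ‖θ‖ = 1) :
    ∃ ε > 0, ∃ C : ℝ, 0 < C ∧ ∀ x, ¬ (PS hP hk).Dead θ x C → ∃ t ∈ Icc 0 C, ∃ y,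
      (PS hP hk).Seg x ((t : ℂ) * θ) y ∧ ε ≤ (PS hP hk).rad y := by
  obtain ⟨r₀, hr₀, hsep, hnear⟩ := near_vertex hP
  obtain ⟨ε, hε, hbd⟩ := rho2_bound hP (r₀ / 2) (by linarith)
  refine ⟨ε, hε, r₀ + 1, by linarith, fun x hx => ?_⟩
  unfold TSurf.Dead at hx
  rw [not_not] at hx
  obtain ⟨y, hy⟩ := hx
  obtain ⟨z, ρ, hρ, h0, h1, -, hseg, hp⟩ := TSurf.seg_path hy
  by_contra hcon
  push Not at hcon
  set C : ℝ := r₀ + 1 with hC
  have hC0 : 0 < C := by linarith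
  have hWn : ‖((C : ℝ) : ℂ) * θ‖ = C := by
    rw [norm_mul, Complex.norm_real, Real.norm_eq_abs, abs_of_pos hC0, hθ, mul_one]
  -- all points of the path are close to a vertex
  have hclose : ∀ s ∈ Icc (0 : ℝ) 1, ∃ i, ‖(z s).p - v i‖ < r₀ / 2 := by
    intro s hs
    by_contra hno
    push Not at hno
    have h2 := hbd (z s).p (z s).mem hno
    have h3 := hcon (s * C) ⟨mul_nonneg hs.1 hC0.le, mul_le_of_le_one_left hC0.le hs.2⟩ (z s) (by
      have := hseg s hs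
      have e : ((s * C : ℝ) : ℂ) * θ = (s : ℂ) * ((C : ℂ) * θ) := by push_cast; ring
      rw [e]
      exact this)
    exact absurd h2 (not_le.2 h3)
  choose! j hj using hclose
  -- the vertex is the same
  have hlip : ∀ s ∈ Icc (0 : ℝ) 1, ∀ s' ∈ Icc (0 : ℝ) 1, |s' - s| * C < ρ →
      ‖(z s').p - (z s).p‖ ≤ |s' - s| * C := by
    intro s hs s' hs' hd
    have h2 := hp s hs s' hs' (by rw [hWn]; exact hd)
    have h3 := sadd_dist hP hk (z s) (((s' - s : ℝ) : ℂ) * ((C : ℂ) * θ))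
    have h4 : z s' = sadd hP hk (z s) (((s' - s : ℝ) : ℂ) * ((C : ℂ) * θ)) := h2
    rw [h4]
    refine h3.trans (le_of_eq ?_)
    rw [norm_mul, hWn, Complex.norm_real, Real.norm_eq_abs]
  have hconst := const_of_local j (a := 0) (b := 1) (by
    intro s hs
    have h2 : 0 < r₀ / 2 - ‖(z s).p - v (j s)‖ := by linarith [hj s hs]
    refine ⟨min ρ (r₀ / 2) / C, div_pos (lt_min hρ (by linarith)) hC0, fun s' hs' hd => ?_⟩
    rw [lt_div_iff₀ hC0] at hd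
    have h3 := hlip s hs s' hs' (hd.trans_le (min_le_left _ _))
    have h4 := hd.trans_le (min_le_right _ _)
    by_contra hne
    have h5 := hsep _ _ hne
    have h6 := hj s hs
    have h7 := hj s' hs'
    have h8 : ‖v (j s') - v (j s)‖ ≤ ‖(z s').p - v (j s')‖ + ‖(z s').p - (z s).p‖ + ‖(z s).p - v (j s)‖ := by
      have e : v (j s') - v (j s) = -((z s').p - v (j s')) + ((z s').p - (z s).p) + ((z s).p - v (j s)) := by
        ring
      rw [e]
      refine (norm_add_le _ _).trans (add_le_add ((norm_add_le _ _).trans ?_) le_rfl)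
      rw [norm_neg]
    linarith)
  have h00 : (0 : ℝ) ∈ Icc (0 : ℝ) 1 := ⟨le_rfl, zero_le_one⟩
  have hin : ∀ s ∈ Icc (0 : ℝ) 1, ‖(z s).p - v (j 0)‖ < r₀ / 2 := by
    intro s hs
    rw [hconst 0 h00 s hs]
    exact hj s hs
  obtain ⟨c, hc⟩ := psi_seg hP hk (j 0) z ((C : ℂ) * θ) (a := 0) (b := 1) one_pos
    (fun s hs => ⟨ρ / C, div_pos hρ hC0, fun s' hs' hd => by
      rw [lt_div_iff₀ hC0] at hd
      exact hp s hs s' hs' (by rw [hWn]; exact hd)⟩)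
    (fun s hs => (hnear (j 0) (z s).p (by linarith [hin s hs])).1)
  have e0 := hin 0 h00
  have e1 := hin 1 ⟨zero_le_one, le_rfl⟩
  have e2 := hc 1 ⟨zero_le_one, le_rfl⟩
  have e3 := hc (1 / 2) ⟨by norm_num, by norm_num⟩
  rw [hWn] at e2 e3
  have n0 := norm_nonneg ((z 0).p - v (j 0))
  have n1 := norm_nonneg ((z 1).p - v (j 0))
  have s0 : ‖(z 0).p - v (j 0)‖ ^ 2 ≤ (r₀ / 2) ^ 2 := by nlinarith
  have s1 : ‖(z 1).p - v (j 0)‖ ^ 2 ≤ (r₀ / 2) ^ 2 := by nlinarith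
  have s2 : 0 ≤ ‖(z (1 / 2)).p - v (j 0)‖ ^ 2 := by positivity
  nlinarith [hC]

end

end Pool.Agent.Lib.H52E
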